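import Pool.Agent.EG88.Final
import Pool.Agent.PF84.RS

/-!
# Families of permutations avoiding exactly `t - 1` agreements, `n - t + 1` even

For even `D = n - t + 1` the largest `(t-1)`-intersection-free family of permutations of `n` points
has at most `20 (8 D^2 / n)^(D/2 - 3/2) n!` members, up to a better exponent.

Idea of the proof.  Hoffman's bound for the Cayley graph of the products of two disjoint cycles of
odd lengths `a`, `b` with `a + b = D` and `a - b ∈ {0, 2}`.  Let `χ` be the normalised eigenvalues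
of a common eigenvector of the class sums.  Then `χ(σ) χ(ρ)` is the average of `χ(g σ g⁻¹ ρ)` over
`g`; most of the products are disjoint, and the others, with `j` common points, are no products of
fewer than `D - 2 j` transpositions, so that the moment method of `OddGap` gives
`|χ(g σ g⁻¹ ρ)| ≤ 4 z^(D/2 - j)`, where `z ≥ 4 D^2 / n` and `(z n^2)^(D/2 - 1)` is the moment of
order `D - 2` of the sum of the transpositions through a point.  Hence
`χ(disjoint) ≥ χ(σ) χ(ρ) - 2 (D^2/n) z^(D/2 - 1)`, up to a factor, and the moments `M_k` of order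
`2 k` satisfy `M_(j+k+1) ≤ n^2 M_j M_k`: if they are large then `χ(σ)` and `χ(ρ)` are positive and
dominate the error, and if not then the error is small.
-/

namespace Pool.Agent.Results.MP_87a6f7_co.EvenGap

open Finset

/-- No two distinct members of `F` agree at exactly `s` points. -/
def IntersectionFree {n : ℕ} (s : ℕ) (F : Finset (Equiv.Perm (Fin n))) : Prop :=
  ∀ σ ∈ F, ∀ τ ∈ F, σ ≠ τ → (Finset.univ.filter fun i => σ i = τ i).card ≠ s

open Classical in
/-- The largest size of a family of permutations of `n` points, no two distinct members of which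
agree at exactly `s` points. -/
noncomputable def maxFree (n s : ℕ) : ℕ :=
  ((Finset.univ : Finset (Finset (Equiv.Perm (Fin n)))).filter
    (fun F => IntersectionFree s F)).sup Finset.card

lemma le_maxFree {n s : ℕ} {F : Finset (Equiv.Perm (Fin n))} (h : IntersectionFree s F) :
    F.card ≤ maxFree n s := by
  classical
  unfold maxFree
  exact Finset.le_sup (f := Finset.card) (Finset.mem_filter.2 ⟨Finset.mem_univ _, h⟩)

lemma exists_maxFree (n s : ℕ) :
    ∃ F : Finset (Equiv.Perm (Fin n)), IntersectionFree s F ∧ F.card = maxFree n s := by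
  classical
  have hne : ((Finset.univ : Finset (Finset (Equiv.Perm (Fin n)))).filter
      (fun F => IntersectionFree s F)).Nonempty :=
    ⟨∅, Finset.mem_filter.2 ⟨Finset.mem_univ _, fun σ hσ => absurd hσ (Finset.notMem_empty σ)⟩⟩
  obtain ⟨F, hF, hc⟩ := Finset.exists_mem_eq_sup _ hne Finset.card
  refine ⟨F, (Finset.mem_filter.mp hF).2, ?_⟩
  unfold maxFree
  rw [hc]

/-- A bound for all families without two members with quotient of cycle type `a`, `b`. -/
lemma maxFree_le {n t a b : ℕ} {X : ℝ} (ht : 1 ≤ t) (htn : t ≤ n) (hD : n - t + 1 = a + b)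
    (h : ∀ F : Finset (Equiv.Perm (Fin n)),
      (∀ σ ∈ F, ∀ τ ∈ F, (σ⁻¹ * τ).cycleType ≠ {a, b}) → (F.card : ℝ) ≤ X) :
    (maxFree n (t - 1) : ℝ) ≤ X := by
  obtain ⟨F, hF, hcard⟩ := exists_maxFree n (t - 1)
  rw [← hcard]
  apply h F
  intro σ hσ τ hτ hc
  have hs : (σ⁻¹ * τ).support.card = a + b := by
    rw [← Equiv.Perm.sum_cycleType, hc]
    simp
  have hne : σ ≠ τ := by
    rintro rfl
    rw [inv_mul_cancel, Equiv.Perm.support_one, Finset.card_empty] at hs
    omega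
  apply hF σ hσ τ hτ hne
  have h1 : (σ⁻¹ * τ).support = (Finset.univ.filter fun i => σ i = τ i)ᶜ := by
    ext i
    simp only [Equiv.Perm.mem_support, Equiv.Perm.coe_mul, Function.comp_apply,
      Finset.mem_compl, Finset.mem_filter, Finset.mem_univ, true_and]
    rw [Ne, Equiv.Perm.inv_eq_iff_eq]
    exact ⟨fun h h2 => h h2.symm, fun h h2 => h h2.symm⟩
  rw [h1, Finset.card_compl, Fintype.card_fin] at hs
  omega

lemma lower (n t : ℕ) (ht : 1 ≤ t) (htn : t ≤ n) :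
    (n.factorial : ℝ) / (2 * n) ^ (n - t) ≤ maxFree n (t - 1) := by
  obtain ⟨q, hq, hnq, hq2⟩ := Nat.exists_prime_lt_and_le_two_mul n (by omega)
  obtain ⟨F, hF, hc⟩ := Pool.Agent.PF84.exists_rs n (n - t + 1) q hq hnq.le (by omega)
  have hfree : IntersectionFree (t - 1) F := by
    intro σ hσ τ hτ hne h
    have h1 := hF σ hσ τ hτ hne
    have h2 : (Finset.univ.filter fun i => σ i = τ i).card
        + (Finset.univ.filter fun i => σ i ≠ τ i).card = n := by
      rw [Finset.card_filter_add_card_filter_not]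
      simp
    rw [h] at h2
    omega
  rw [Nat.add_sub_cancel] at hc
  have h1 : n.factorial ≤ maxFree n (t - 1) * (2 * n) ^ (n - t) := by
    calc n.factorial ≤ F.card * q ^ (n - t) := hc
      _ ≤ maxFree n (t - 1) * (2 * n) ^ (n - t) := by
          apply Nat.mul_le_mul (le_maxFree hfree)
          exact Nat.pow_le_pow_left hq2 _
  have hn : (0 : ℝ) < n := by exact_mod_cast (by omega : 0 < n)
  rw [div_le_iff₀ (by positivity)]
  exact_mod_cast h1

/-- Let `1 ≤ t ≤ n` with `D = n - t + 1` even, `D ≥ 4`. Then the largest size `M(n,t)` of a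
`(t-1)`-intersection-free family in `S_n` satisfies `n!/(2n)^(D-1) ≤ M(n,t)` and
* `M(n,t) ≤ (8 D^2/n)^(D/2 - 1 + 4/(D+2)) n!` if `D` is no multiple of `4`,
* `M(n,t) ≤ 20 (8 D^2/n)^(D/2 - 1 - 4/D) n!` if `D` is a multiple of `4` and `D ≥ 8`,
* `M(n,t) ≤ (64/n) n!` if `D = 4`.
The upper bounds hold for every family without two members `σ`, `τ` for which `σ⁻¹ τ` is a product
of two disjoint cycles of the lengths `D/2`, `D/2`, or `D/2 + 1`, `D/2 - 1`, or `2`, `2`. -/
theorem result (n t D : ℕ) (ht : 1 ≤ t) (htn : t ≤ n) (hD : n - t + 1 = D) (hev : Even D)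
    (hD4 : 4 ≤ D) :
    (n.factorial : ℝ) / (2 * n) ^ (D - 1) ≤ maxFree n (t - 1) ∧
    (D % 4 = 2 →
      (maxFree n (t - 1) : ℝ)
        ≤ (8 * (D : ℝ) ^ 2 / n) ^ ((D : ℝ) / 2 - 1 + 4 / ((D : ℝ) + 2)) * n.factorial ∧
      ∀ F : Finset (Equiv.Perm (Fin n)),
        (∀ σ ∈ F, ∀ τ ∈ F, (σ⁻¹ * τ).cycleType ≠ {D / 2, D / 2}) →
        (F.card : ℝ)
          ≤ (8 * (D : ℝ) ^ 2 / n) ^ ((D : ℝ) / 2 - 1 + 4 / ((D : ℝ) + 2)) * n.factorial) ∧
    (D % 4 = 0 → 8 ≤ D →
      (maxFree n (t - 1) : ℝ)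
        ≤ 20 * (8 * (D : ℝ) ^ 2 / n) ^ ((D : ℝ) / 2 - 1 - 4 / (D : ℝ)) * n.factorial ∧
      ∀ F : Finset (Equiv.Perm (Fin n)),
        (∀ σ ∈ F, ∀ τ ∈ F, (σ⁻¹ * τ).cycleType ≠ {D / 2 + 1, D / 2 - 1}) →
        (F.card : ℝ)
          ≤ 20 * (8 * (D : ℝ) ^ 2 / n) ^ ((D : ℝ) / 2 - 1 - 4 / (D : ℝ)) * n.factorial) ∧
    (D = 4 →
      (maxFree n (t - 1) : ℝ) ≤ 64 / n * n.factorial ∧
      ∀ F : Finset (Equiv.Perm (Fin n)),
        (∀ σ ∈ F, ∀ τ ∈ F, (σ⁻¹ * τ).cycleType ≠ {2, 2}) →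
        (F.card : ℝ) ≤ 64 / n * n.factorial) := by
  have hn0 : 0 < n := by omega
  refine ⟨?_, ?_, ?_, ?_⟩
  · rw [← hD, Nat.add_sub_cancel]
    exact lower n t ht htn
  · intro h2
    obtain ⟨e, rfl⟩ : ∃ e, D = 4 * e + 2 := ⟨D / 4, by omega⟩
    have he : 1 ≤ e := by omega
    have h3 : (4 * e + 2) / 2 = 2 * e + 1 := by omega
    have h4 : (((4 * e + 2 : ℕ) : ℝ)) / 2 - 1 + 4 / (((4 * e + 2 : ℕ) : ℝ) + 2)
        = 2 * (e : ℝ) + 1 / ((e : ℝ) + 1) := by
      push_cast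
      field_simp
      ring
    have h5 : (((4 * e + 2 : ℕ) : ℝ)) = 4 * (e : ℝ) + 2 := by push_cast; ring
    have key : ∀ F : Finset (Equiv.Perm (Fin n)),
        (∀ σ ∈ F, ∀ τ ∈ F, (σ⁻¹ * τ).cycleType ≠ {2 * e + 1, 2 * e + 1}) →
        (F.card : ℝ) ≤ (8 * (((4 * e + 2 : ℕ) : ℝ)) ^ 2 / n) ^
          ((((4 * e + 2 : ℕ) : ℝ)) / 2 - 1 + 4 / (((4 * e + 2 : ℕ) : ℝ) + 2)) * n.factorial := by
      intro F hF
      rw [h4, h5]
      exact Pool.Agent.EG88.bound_eq he hn0 F hF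
    rw [h3]
    exact ⟨maxFree_le ht htn (by omega) key, key⟩
  · intro h0 h8
    obtain ⟨e, rfl⟩ : ∃ e, D = 4 * e + 4 := ⟨D / 4 - 1, by omega⟩
    have he : 1 ≤ e := by omega
    have h3 : (4 * e + 4) / 2 + 1 = 2 * e + 3 := by omega
    have h3' : (4 * e + 4) / 2 - 1 = 2 * e + 1 := by omega
    have h4 : (((4 * e + 4 : ℕ) : ℝ)) / 2 - 1 - 4 / (((4 * e + 4 : ℕ) : ℝ))
        = 2 * (e : ℝ) + 1 - 1 / ((e : ℝ) + 1) := by
      push_cast
      field_simp
      ring
    have h5 : (((4 * e + 4 : ℕ) : ℝ)) = 4 * (e : ℝ) + 4 := by push_cast; ring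
    have key : ∀ F : Finset (Equiv.Perm (Fin n)),
        (∀ σ ∈ F, ∀ τ ∈ F, (σ⁻¹ * τ).cycleType ≠ {2 * e + 3, 2 * e + 1}) →
        (F.card : ℝ) ≤ 20 * (8 * (((4 * e + 4 : ℕ) : ℝ)) ^ 2 / n) ^
          ((((4 * e + 4 : ℕ) : ℝ)) / 2 - 1 - 4 / (((4 * e + 4 : ℕ) : ℝ))) * n.factorial := by
      intro F hF
      rw [h4, h5]
      exact Pool.Agent.EG88.bound_ne he hn0 F hF
    rw [h3, h3']
    exact ⟨maxFree_le ht htn (by omega) key, key⟩
  · rintro rfl
    exact ⟨maxFree_le ht htn (by omega) (Pool.Agent.EG88.bound_four hn0),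
      Pool.Agent.EG88.bound_four hn0⟩

end Pool.Agent.Results.MP_87a6f7_co.EvenGap
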