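import Pool.Agent.OG88.Hoffman
import Pool.Agent.PF84.RS

/-!
# Families of permutations avoiding exactly `t - 1` agreements, `n - t + 1` odd

For odd `D = n - t + 1` the largest `(t-1)`-intersection-free family of permutations of `n` points
has at most `(4 D^2 / n)^((D-1)/2) n!` members.

Idea of the proof.  Hoffman's bound for the Cayley graph of the `D`-cycles.  Let `v` be a unit
vector of an orthogonal representation of `S_n` that is an eigenvector of all class sums, let `X_a`
be the sum of the transpositions moving `a`, and let `τ(π, p, j)` be the average of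
`⟨g π g⁻¹ v, X_{g p}^j v⟩` over `g`.  Then `τ(π, p, j + 1)` is the sum of `τ((p s) π, p, j)` over
`s ≠ p`, `∑_q τ(π, q, j) = n τ(π, p, 0) τ(1, p, j)`, and `|τ(π, p, j)| ≤ x^j` for `j ≤ 2 e` if
`τ(1, p, 2 e) ≤ x^(2 e)`.  Hence `|τ(π, p, j)| ≤ K^l x^j (x / n)^l` if `π` is not a product of fewer
than `l` transpositions, and following a cycle of length `2 e + 1` one obtains
`τ(π, p, 0) ≥ -(4 (2 e + 1)^2 / n)^e` for such a cycle `π`.
-/

namespace Pool.Agent.Results.MP_87a6f7_co.OddGap

open Finset

/-- No two distinct members of `F` agree at exactly `s` points. -/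
def IntersectionFree {n : ℕ} (s : ℕ) (F : Finset (Equiv.Perm (Fin n))) : Prop :=
  ∀ σ ∈ F, ∀ τ ∈ F, σ ≠ τ → (Finset.univ.filter fun i => σ i = τ i).card ≠ s

open Classical in
/-- The largest size of a family of permutations of `n` points, no two distinct members of which
agree at exactly `s` points. -/
noncomputable def maxFree (n s : ℕ) : ℕ :=
  ((Finset.univ : Finset (Finset (Equiv.Perm (Fin n)))).filter
    (fun F => IntersectionFree s F)).sup Finset.card

lemma le_maxFree {n s : ℕ} {F : Finset (Equiv.Perm (Fin n))} (h : IntersectionFree s F) :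
    F.card ≤ maxFree n s := by
  classical
  unfold maxFree
  exact Finset.le_sup (f := Finset.card) (Finset.mem_filter.2 ⟨Finset.mem_univ _, h⟩)

lemma exists_maxFree (n s : ℕ) :
    ∃ F : Finset (Equiv.Perm (Fin n)), IntersectionFree s F ∧ F.card = maxFree n s := by
  classical
  have hne : ((Finset.univ : Finset (Finset (Equiv.Perm (Fin n)))).filter
      (fun F => IntersectionFree s F)).Nonempty :=
    ⟨∅, Finset.mem_filter.2 ⟨Finset.mem_univ _, fun σ hσ => absurd hσ (Finset.notMem_empty σ)⟩⟩
  obtain ⟨F, hF, hc⟩ := Finset.exists_mem_eq_sup _ hne Finset.card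
  refine ⟨F, (Finset.mem_filter.mp hF).2, ?_⟩
  unfold maxFree
  rw [hc]

/-- Let `1 ≤ t ≤ n` with `D = n - t + 1 = 2e + 1` odd. Then the largest size `M(n,t)` of a
`(t-1)`-intersection-free family in `S_n` satisfies
`n!/(2n)^(D-1) ≤ M(n,t) ≤ (4 D^2/n)^((D-1)/2) n!`; the upper bound holds for every family without
two members `σ`, `τ` for which `σ⁻¹ τ` is a cycle of length `D`. -/
theorem result (n t e : ℕ) (ht : 1 ≤ t) (htn : t ≤ n) (hD : n - t + 1 = 2 * e + 1) :
    n.factorial ≤ maxFree n (t - 1) * (2 * n) ^ (2 * e) ∧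
    maxFree n (t - 1) * n ^ e ≤ (2 * (2 * e + 1)) ^ (2 * e) * n.factorial ∧
    ∀ F : Finset (Equiv.Perm (Fin n)),
      (∀ σ ∈ F, ∀ τ ∈ F, ¬ ((σ⁻¹ * τ).IsCycle ∧ (σ⁻¹ * τ).support.card = 2 * e + 1)) →
      F.card * n ^ e ≤ (2 * (2 * e + 1)) ^ (2 * e) * n.factorial := by
  refine ⟨?_, ?_, fun F hF => Pool.Agent.OG88.card_le_of_cycle_free F hF⟩
  · obtain ⟨q, hq, hnq, hq2⟩ := Nat.exists_prime_lt_and_le_two_mul n (by omega)
    obtain ⟨F, hF, hc⟩ := Pool.Agent.PF84.exists_rs n (n - t + 1) q hq hnq.le (by omega)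
    have hfree : IntersectionFree (t - 1) F := by
      intro σ hσ τ hτ hne h
      have h1 := hF σ hσ τ hτ hne
      have h2 : (Finset.univ.filter fun i => σ i = τ i).card
          + (Finset.univ.filter fun i => σ i ≠ τ i).card = n := by
        rw [Finset.card_filter_add_card_filter_not]
        simp
      rw [h] at h2
      omega
    rw [show n - t + 1 - 1 = 2 * e by omega] at hc
    calc n.factorial ≤ F.card * q ^ (2 * e) := hc
      _ ≤ maxFree n (t - 1) * (2 * n) ^ (2 * e) := by
          apply Nat.mul_le_mul (le_maxFree hfree)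
          exact Nat.pow_le_pow_left hq2 _
  · obtain ⟨F, hF, hcard⟩ := exists_maxFree n (t - 1)
    rw [← hcard]
    apply Pool.Agent.OG88.card_le_of_cycle_free F
    rintro σ hσ τ hτ ⟨hc, hs⟩
    have hne : σ ≠ τ := by
      rintro rfl
      rw [inv_mul_cancel] at hc
      exact hc.ne_one rfl
    apply hF σ hσ τ hτ hne
    have h1 : (σ⁻¹ * τ).support = (Finset.univ.filter fun i => σ i = τ i)ᶜ := by
      ext i
      simp only [Equiv.Perm.mem_support, Equiv.Perm.coe_mul, Function.comp_apply,
        Finset.mem_compl, Finset.mem_filter, Finset.mem_univ, true_and]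
      rw [Ne, Equiv.Perm.inv_eq_iff_eq]
      exact ⟨fun h h2 => h h2.symm, fun h h2 => h h2.symm⟩
    rw [h1, Finset.card_compl, Fintype.card_fin] at hs
    omega

end Pool.Agent.Results.MP_87a6f7_co.OddGap
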