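import Pool.Agent.PF84.Lower

namespace Pool.Agent.Results.MP_87a6f7_co.PrimePower

open Finset

/-- No two distinct members of `F` agree at exactly `s` points. -/
def IntersectionFree {n : ℕ} (s : ℕ) (F : Finset (Equiv.Perm (Fin n))) : Prop :=
  ∀ σ ∈ F, ∀ τ ∈ F, σ ≠ τ → (Finset.univ.filter fun i => σ i = τ i).card ≠ s

open Classical in
/-- The largest size of a family of permutations of `n` points, no two distinct members of which
agree at exactly `s` points. -/
noncomputable def maxFree (n s : ℕ) : ℕ :=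
  ((Finset.univ : Finset (Finset (Equiv.Perm (Fin n)))).filter
    (fun F => IntersectionFree s F)).sup Finset.card

lemma le_maxFree {n s : ℕ} {F : Finset (Equiv.Perm (Fin n))} (h : IntersectionFree s F) :
    F.card ≤ maxFree n s := by
  classical
  unfold maxFree
  apply Finset.le_sup (f := Finset.card)
  simp [h]

lemma exists_maxFree (n s : ℕ) :
    ∃ F : Finset (Equiv.Perm (Fin n)), IntersectionFree s F ∧ F.card = maxFree n s := by
  classical
  have hne : ((Finset.univ : Finset (Finset (Equiv.Perm (Fin n)))).filter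
      (fun F => IntersectionFree s F)).Nonempty :=
    ⟨∅, by simp [IntersectionFree]⟩
  obtain ⟨F, hF, hc⟩ := Finset.exists_mem_eq_sup _ hne Finset.card
  refine ⟨F, (Finset.mem_filter.mp hF).2, ?_⟩
  unfold maxFree
  rw [hc]

lemma maxFree_le {n s M : ℕ}
    (h : ∀ F : Finset (Equiv.Perm (Fin n)), IntersectionFree s F → F.card ≤ M) :
    maxFree n s ≤ M := by
  obtain ⟨F, hF, hc⟩ := exists_maxFree n s
  rw [← hc]
  exact h F hF

lemma choose_le_two_pow' (n k : ℕ) : n.choose k ≤ 2 ^ n := by
  rw [← Nat.sum_range_choose]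
  by_cases h : k ≤ n
  · exact Finset.single_le_sum (f := fun m => n.choose m) (fun _ _ => Nat.zero_le _)
      (Finset.mem_range.mpr (by omega))
  · rw [Nat.choose_eq_zero_of_lt (by omega)]; exact Nat.zero_le _

/-- Let `1 ≤ t ≤ n`, let `M(n,t)` be the largest size of a `(t-1)`-intersection-free family in
`S_n`, and let `P` be a prime power dividing `n - t + 1`.
* If `t ≤ P`, then `(n-t)! ≤ M(n,t) ≤ (n choose t)^2 (n-t)!`.
* If `P ≤ t`, then `M(n,t) ≤ (n-t+P choose P) n!/P!`.
* If `P = n-t+1`, then `M(n,t)` lies between `max((n-t)!,(t-1)!)` and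
  `4^n max((n-t)!,(t-1)!)`. -/
theorem result (n t P : ℕ) (ht : 1 ≤ t) (htn : t ≤ n) (hP : IsPrimePow P)
    (hPD : P ∣ n - t + 1) :
    (t ≤ P → (n - t).factorial ≤ maxFree n (t - 1) ∧
      maxFree n (t - 1) ≤ (n.choose t) ^ 2 * (n - t).factorial) ∧
    (P ≤ t → maxFree n (t - 1) * P.factorial ≤ (n - t + P).choose P * n.factorial) ∧
    (P = n - t + 1 →
      max (n - t).factorial (t - 1).factorial ≤ maxFree n (t - 1) ∧
      maxFree n (t - 1) ≤ 4 ^ n * max (n - t).factorial (t - 1).factorial) := by
  obtain ⟨p, e, hp, he, hpe⟩ := hP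
  have hp' : p.Prime := hp.nat_prime
  have hP1 : 1 < P := by
    rw [← hpe]; exact Nat.one_lt_pow he.ne' hp'.one_lt
  have hlow1 : (n - t).factorial ≤ maxFree n (t - 1) := by
    obtain ⟨F, hF, hc⟩ := Pool.Agent.PF84.exists_stab n t ht htn
    rw [← hc]
    exact le_maxFree hF
  have hlow2 : (t - 1).factorial ≤ maxFree n (t - 1) := by
    obtain ⟨F, hF, hc⟩ := Pool.Agent.PF84.exists_greedy n t ht htn
    exact hc.trans (le_maxFree hF)
  have hA : t ≤ P → maxFree n (t - 1) ≤ (n.choose t) ^ 2 * (n - t).factorial := by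
    intro htP
    apply maxFree_le
    intro F hF
    have h := Pool.Agent.PF84.card_le_of_lt p e (n - t + 1) n hp' (by omega) (by rw [hpe]; exact hPD)
      (by omega) (by rw [hpe]; omega) F (by
      intro σ hσ τ hτ hne
      have h1 := hF σ hσ τ hτ hne
      have h2 : n - (n - t + 1) = t - 1 := by omega
      rw [h2]
      exact h1)
    rw [show n - t + 1 - 1 = n - t by omega, Nat.choose_symm htn] at h
    exact h
  have hB : P ≤ t → maxFree n (t - 1) * P.factorial ≤ (n - t + P).choose P * n.factorial := by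
    intro hPt
    obtain ⟨F, hF, hc⟩ := exists_maxFree n (t - 1)
    rw [← hc]
    obtain ⟨k, hk⟩ := Nat.exists_eq_add_of_le (show (n - t + 1) + P - 1 ≤ n by omega)
    have key : ∀ m : ℕ, m = (n - t + 1) + P - 1 + k →
        ∀ F : Finset (Equiv.Perm (Fin m)),
        (∀ σ ∈ F, ∀ τ ∈ F, σ ≠ τ → (Pool.Agent.PF84.agr σ τ).card ≠ m - (n - t + 1)) →
        F.card * P.factorial ≤ ((n - t + 1) + P - 1).choose P * m.factorial := by
      intro m hm
      subst hm
      exact Pool.Agent.PF84.card_le_of_ge p e P (n - t + 1) hp' hpe.symm (by omega) hPD k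
    have h := key n hk F (by
      intro σ hσ τ hτ hne
      have h1 := hF σ hσ τ hτ hne
      have h2 : n - (n - t + 1) = t - 1 := by omega
      rw [h2]
      exact h1)
    rw [show (n - t + 1) + P - 1 = n - t + P by omega] at h
    exact h
  refine ⟨fun h => ⟨hlow1, hA h⟩, hB, ?_⟩
  intro hPeq
  refine ⟨max_le hlow1 hlow2, ?_⟩
  have h4 : (4 : ℕ) ^ n = 2 ^ n * 2 ^ n := by
    rw [← mul_pow]; norm_num
  rcases Nat.le_total t P with h | h
  · calc maxFree n (t - 1) ≤ (n.choose t) ^ 2 * (n - t).factorial := hA h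
      _ ≤ 4 ^ n * max (n - t).factorial (t - 1).factorial := by
          apply Nat.mul_le_mul
          · rw [h4, sq]
            exact Nat.mul_le_mul (choose_le_two_pow' _ _) (choose_le_two_pow' _ _)
          · exact le_max_left _ _
  · have h1 := hB h
    have h3 := Nat.choose_mul_factorial_mul_factorial (n := n) (k := t - 1) (by omega)
    rw [show n - (t - 1) = P by omega] at h3
    have h5 : maxFree n (t - 1) * P.factorial ≤
        ((n - t + P).choose P * n.choose (t - 1) * (t - 1).factorial) * P.factorial := by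
      calc maxFree n (t - 1) * P.factorial ≤ (n - t + P).choose P * n.factorial := h1
        _ = _ := by rw [← h3]; ring
    have h6 := Nat.le_of_mul_le_mul_right h5 (Nat.factorial_pos _)
    refine h6.trans ?_
    apply Nat.mul_le_mul
    · rw [h4]
      refine Nat.mul_le_mul ((choose_le_two_pow' _ _).trans ?_) (choose_le_two_pow' _ _)
      exact Nat.pow_le_pow_right (by norm_num) (by omega)
    · exact le_max_right _ _

end Pool.Agent.Results.MP_87a6f7_co.PrimePower
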