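import Pool.Agent.PF84.Uniform
import Pool.Agent.PF84.RS

namespace Pool.Agent.Results.MP_87a6f7_co.UniformGap

open Finset

/-- No two distinct members of `F` agree at exactly `s` points. -/
def IntersectionFree {n : ℕ} (s : ℕ) (F : Finset (Equiv.Perm (Fin n))) : Prop :=
  ∀ σ ∈ F, ∀ τ ∈ F, σ ≠ τ → (Finset.univ.filter fun i => σ i = τ i).card ≠ s

open Classical in
/-- The largest size of a family of permutations of `n` points, no two distinct members of which
agree at exactly `s` points. -/
noncomputable def maxFree (n s : ℕ) : ℕ :=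
  ((Finset.univ : Finset (Finset (Equiv.Perm (Fin n)))).filter
    (fun F => IntersectionFree s F)).sup Finset.card

lemma le_maxFree {n s : ℕ} {F : Finset (Equiv.Perm (Fin n))} (h : IntersectionFree s F) :
    F.card ≤ maxFree n s := by
  classical
  unfold maxFree
  apply Finset.le_sup (f := Finset.card)
  simp [h]

lemma exists_maxFree (n s : ℕ) :
    ∃ F : Finset (Equiv.Perm (Fin n)), IntersectionFree s F ∧ F.card = maxFree n s := by
  classical
  have hne : ((Finset.univ : Finset (Finset (Equiv.Perm (Fin n)))).filter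
      (fun F => IntersectionFree s F)).Nonempty :=
    ⟨∅, by simp [IntersectionFree]⟩
  obtain ⟨F, hF, hc⟩ := Finset.exists_mem_eq_sup _ hne Finset.card
  refine ⟨F, (Finset.mem_filter.mp hF).2, ?_⟩
  unfold maxFree
  rw [hc]

/-- Let `1 ≤ t ≤ n`, put `D = n - t + 1`, and let `P` be a prime power with `P ∣ D` and `3P ≤ D`.
Then the largest size `M(n,t)` of a `(t-1)`-intersection-free family in `S_n` satisfies
`n!/(2n)^(D-1) ≤ M(n,t) ≤ (16 D/n)^P n!`. -/
theorem result (n t P : ℕ) (ht : 1 ≤ t) (htn : t ≤ n) (hP : IsPrimePow P)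
    (hPD : P ∣ n - t + 1) (h3 : 3 * P ≤ n - t + 1) :
    n.factorial ≤ maxFree n (t - 1) * (2 * n) ^ (n - t) ∧
    maxFree n (t - 1) * n ^ P ≤ (16 * (n - t + 1)) ^ P * n.factorial := by
  obtain ⟨p, e, hp, he, hpe⟩ := hP
  have hp' : p.Prime := hp.nat_prime
  have hP1 : 0 < P := by rw [← hpe]; exact pow_pos hp'.pos e
  constructor
  · obtain ⟨q, hq, hnq, hq2⟩ := Nat.exists_prime_lt_and_le_two_mul n (by omega)
    obtain ⟨F, hF, hc⟩ := Pool.Agent.PF84.exists_rs n (n - t + 1) q hq hnq.le (by omega)
    have hfree : IntersectionFree (t - 1) F := by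
      intro σ hσ τ hτ hne h
      have h1 := hF σ hσ τ hτ hne
      have h2 : (Finset.univ.filter fun i => σ i = τ i).card
          + (Finset.univ.filter fun i => σ i ≠ τ i).card = n := by
        rw [Finset.card_filter_add_card_filter_not]
        simp
      rw [h] at h2
      omega
    rw [show n - t + 1 - 1 = n - t by omega] at hc
    calc n.factorial ≤ F.card * q ^ (n - t) := hc
      _ ≤ maxFree n (t - 1) * (2 * n) ^ (n - t) := by
          apply Nat.mul_le_mul (le_maxFree hfree)
          exact Nat.pow_le_pow_left hq2 _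
  · obtain ⟨c, hc⟩ := hPD
    have hcP : n - t + 1 = c * P := by rw [hc, mul_comm]
    have hc3 : 3 ≤ c := by
      by_contra hcon
      push Not at hcon
      have : c * P < 3 * P := Nat.mul_lt_mul_of_pos_right hcon hP1
      omega
    obtain ⟨F, hF, hcard⟩ := exists_maxFree n (t - 1)
    rw [← hcard, hcP]
    apply Pool.Agent.PF84.uniform p e P c n hp' hpe.symm hc3 (by omega) F
    intro σ hσ τ hτ hne
    rw [← hcP, show n - (n - t + 1) = t - 1 by omega]
    exact hF σ hσ τ hτ hne

end Pool.Agent.Results.MP_87a6f7_co.UniformGap
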